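import Pool.Agent.Helper52.SM.Goals

/-!
# MEM: the memory before a stage
-/

namespace Pool.Agent.Helper66.SM

open Pool.Agent.Helper78 Pool.Agent.Helper52.SM
open scoped Classical

theorem mem_lt (act : PM.View → ℕ) (c : ℕ) (x : List Bool) (b : ℕ → Bool) :
    ∀ (i : ℕ) (M : PM.Mem), mem act c x b i = some M → ∀ e ∈ M, e.1 < i := by
  intro i
  induction i with
  | zero =>
    intro M h e he
    simp only [mem, Option.some.injEq] at h
    subst h
    simp at he
  | succ i ih =>
    intro M h e he
    rcases hm : mem act c x b i with _ | M0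
    · simp [mem, hm] at h
    · simp only [mem, hm] at h
      split_ifs at h with h1 h2
      · simp only [Option.some.injEq] at h
        subst h
        rcases List.mem_append.mp he with h3 | h3
        · exact Nat.lt_succ_of_lt (ih M0 hm e h3)
        · simp only [List.mem_singleton] at h3
          subst h3
          exact Nat.lt_succ_self i
      · simp only [Option.some.injEq] at h
        subst h
        exact Nat.lt_succ_of_lt (ih M0 hm e he)

theorem mem_run (act : PM.View → ℕ) (c : ℕ) (x : List Bool) (P : ℕ → PM.Mem → Bool)
    (b : ℕ → Bool) : ∀ (n i : ℕ) (M : PM.Mem), mem act c x b i = some M →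
    ∀ (j : ℕ) (M' : PM.Mem), runP act c x P b n i M = Sum.inr (j, M') →
      mem act c x b (j + 1) = some M' ∧ P j M' = false := by
  intro n
  induction n with
  | zero =>
    intro i M _ j M' h
    simp [runP] at h
  | succ n ih =>
    intro i M hM j M' h
    rw [runP] at h
    split_ifs at h with h1 h2 h3 h4
    · refine ih (i + 1) _ ?_ j M' h
      simp [mem, hM, h1, h2, h3]
    · simp only [Sum.inr.injEq, Prod.mk.injEq] at h
      obtain ⟨rfl, rfl⟩ := h
      refine ⟨?_, by simpa using h4⟩
      simp [mem, hM, h1, h2, h3]
    · refine ih (i + 1) _ ?_ j M' h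
      simp [mem, hM, h1, h2, h3]

/-- **MEM.** -/
theorem mem_stmt : MemStmt := fun act c x P b n i M h =>
  ⟨mem_lt act c x b i M h, mem_run act c x P b n i M h⟩

end Pool.Agent.Helper66.SM
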